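import Pool.Agent.Work.MP_a17a63_lc.STally

/-!
# A relativized world with E = NE and a self-1-helper which is not self-reducible
-/

open ORDist

/-- There is an oracle `B` such that every tally language of `NP^B` is in `P^B`, and nevertheless
some language `L` (in `UP^B` and in `coUP^B`) is a self-1-helper relative to `B` but is not
disjunctive self-reducible relative to `B`; it is not even self-reducible relative to `B` by a
polynomial time procedure with advice of polynomial length along an arbitrary well-founded
relation. -/
theorem Pool.Agent.Results.MP_a17a63_lc.HelperNotSelfReducible.result :
    ∃ B : List Bool → Bool,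
      (∀ T : Set (List Bool), (∀ x ∈ T, x = List.replicate x.length true) →
        InNPO B T → InPO B T) ∧
      ∃ L : List Bool → Bool, InUPO B {x | L x = true} ∧ InUPO B {x | L x = true}ᶜ ∧
        SelfOneHelper B L ∧ ¬ DisjSelfRed B L ∧ ¬ WeakSelfRed B L :=
  ORTwo.exists_selfHelper
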